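import Pool.Agent.helper17.HH.SpecR
import Mathlib

open scoped Pointwise

set_option autoImplicit false

namespace Pool.Agent.HH

theorem RNG_cov (δ d B : ℝ) (E : Finset ℝ) (hd : 0 < d)
    (hloc : ∀ x0 : ℝ, (cov δ (lc E x0 d) : ℝ) ≤ B) : (cov δ E : ℝ) ≤ (cov d E : ℝ) * B := by
  classical
  have hsub : cel δ E ⊆ (cel d E).biUnion (fun k => cel δ (lc E ((k : ℝ) * d) d)) := by
    intro z hz
    unfold cel at hz
    rw [Finset.mem_image] at hz
    obtain ⟨x, hx, rfl⟩ := hz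
    rw [Finset.mem_biUnion]
    refine ⟨⌊x / d⌋, ?_, ?_⟩
    · unfold cel
      exact Finset.mem_image_of_mem _ hx
    · unfold cel
      refine Finset.mem_image_of_mem (fun x => ⌊x / δ⌋) ?_
      unfold lc
      rw [Finset.mem_filter]
      refine ⟨hx, ?_⟩
      have h1 : (⌊x / d⌋ : ℝ) ≤ x / d := Int.floor_le _
      have h2 : x / d < (⌊x / d⌋ : ℝ) + 1 := Int.lt_floor_add_one _
      rw [le_div_iff₀ hd] at h1
      rw [div_lt_iff₀ hd] at h2
      rw [abs_le]
      constructor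
      · linarith
      · linarith
  have h1 : cov δ E ≤ ∑ k ∈ cel d E, cov δ (lc E ((k : ℝ) * d) d) := by
    unfold cov
    exact (Finset.card_le_card hsub).trans Finset.card_biUnion_le
  have h2 : (cov δ E : ℝ) ≤ ∑ k ∈ cel d E, (cov δ (lc E ((k : ℝ) * d) d) : ℝ) := by
    exact_mod_cast h1
  refine h2.trans ?_
  calc ∑ k ∈ cel d E, (cov δ (lc E ((k : ℝ) * d) d) : ℝ) ≤ ∑ _k ∈ cel d E, B :=
        Finset.sum_le_sum fun k _ => hloc _
    _ = (cov d E : ℝ) * B := by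
        rw [Finset.sum_const, nsmul_eq_mul]
        rfl

theorem RNG_low (L N : ℝ) (E : Finset ℝ) (hL : 1 ≤ L) (hN : L ^ 1000 = N) (hE : L ^ 499 ≤ cov (1 / N) E)
    (hloc : ∀ s x0 : ℝ, 1 / N ≤ s → s ≤ 1 → (cov (1 / N) (lc E x0 s) : ℝ) ≤ L * Real.sqrt (s * N))
    (d : ℝ) (hd1 : 1 / N ≤ d) (hd2 : d ≤ 1) : 1 ≤ (cov d E : ℝ) * L ^ 2 * Real.sqrt d := by
  have hL0 : 0 < L := by linarith
  have hN0 : 0 < N := by rw [← hN]; positivity
  have hd : 0 < d := lt_of_lt_of_le (by positivity) hd1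
  have h1 := RNG_cov (1 / N) d (L * Real.sqrt (d * N)) E hd (fun x0 => hloc d x0 hd1 hd2)
  have h2 : Real.sqrt (d * N) = Real.sqrt d * L ^ 500 := by
    rw [Real.sqrt_mul hd.le, ← hN]
    congr 1
    rw [show L ^ 1000 = (L ^ 500) ^ 2 by ring]
    exact Real.sqrt_sq (by positivity)
  have h3 : L ^ 499 * 1 ≤ L ^ 499 * ((cov d E : ℝ) * L ^ 2 * Real.sqrt d) := by
    calc L ^ 499 * 1 = L ^ 499 := mul_one _
      _ ≤ (cov d E : ℝ) * (L * Real.sqrt (d * N)) := hE.trans h1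
      _ = L ^ 499 * ((cov d E : ℝ) * L ^ 2 * Real.sqrt d) := by
          rw [h2]; ring
  exact le_of_mul_le_mul_left h3 (by positivity)

theorem RNG_three (M : Finset ℝ) (r : ℝ) (hr : 0 < r) (m0 : ℝ) (hm : ∀ m ∈ M, |m - m0| < r) : cov r M ≤ 3 := by
  classical
  have hsub : cel r M ⊆ {⌊m0 / r⌋ - 1, ⌊m0 / r⌋, ⌊m0 / r⌋ + 1} := by
    intro z hz
    unfold cel at hz
    rw [Finset.mem_image] at hz
    obtain ⟨x, hx, rfl⟩ := hz
    have h := hm x hx
    rw [abs_lt] at h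
    have h1 : x / r < m0 / r + 1 := by
      rw [div_add_one hr.ne']
      exact div_lt_div_of_pos_right (by linarith [h.2]) hr
    have h2 : m0 / r - 1 < x / r := by
      rw [div_sub_one hr.ne']
      exact div_lt_div_of_pos_right (by linarith [h.1]) hr
    have h3 : ⌊x / r⌋ ≤ ⌊m0 / r⌋ + 1 := by
      have := Int.floor_le_floor h1.le
      rwa [Int.floor_add_one] at this
    have h4 : ⌊m0 / r⌋ - 1 ≤ ⌊x / r⌋ := by
      have := Int.floor_le_floor h2.le
      rwa [Int.floor_sub_one] at this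
    simp only [Finset.mem_insert, Finset.mem_singleton]
    omega
  unfold cov
  exact (Finset.card_le_card hsub).trans Finset.card_le_three

theorem RNG_proof (h1 : RNA_stmt) (h2 : RNB_stmt) : RNG_stmt := by
  obtain ⟨C1, hC1, hA⟩ := h1
  obtain ⟨C2, hC2, hB⟩ := h2
  refine ⟨(40 * (C1 + C2)) ^ 1000, one_le_pow₀ (by linarith), ?_⟩
  intro N G M hN hG hup hGlow hM hMloc hmul
  by_contra hcon
  push_neg at hcon
  have hC : 0 < 40 * (C1 + C2) := by linarith
  have hN0 : 0 < N := lt_of_lt_of_le (pow_pos hC 1000) hN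
  set L : ℝ := N ^ (1 / 1000 : ℝ) with hLdef
  have hLN : L ^ 1000 = N := by
    rw [hLdef, ← Real.rpow_natCast, ← Real.rpow_mul hN0.le]
    norm_num
  have hL0 : 0 < L := Real.rpow_pos_of_pos hN0 _
  have hLge : 40 * (C1 + C2) ≤ L := by
    rw [← hLN] at hN
    exact (pow_le_pow_iff_left₀ hC.le hL0.le (by norm_num)).1 hN
  clear hN
  have hL1 : 1 ≤ L := by linarith
  have hpw : ∀ a b : ℕ, a ≤ b → L ^ a ≤ L ^ b := fun a b hab => pow_le_pow_right₀ hL1 hab
  have h499 : N ^ (1 / 2 - 1 / 1000 : ℝ) = L ^ 499 := by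
    rw [hLdef, ← Real.rpow_natCast, ← Real.rpow_mul hN0.le]
    norm_num
  rw [h499] at hGlow hcon
  have hN1 : 1 ≤ N := by rw [← hLN]; exact one_le_pow₀ hL1
  have hlog0 : 0 ≤ Real.log N := Real.log_nonneg hN1
  have hlog : Real.log N ≤ 35 * L ^ 29 := by
    have h := Real.log_le_rpow_div hN0.le (show (0 : ℝ) < 29 / 1000 by norm_num)
    have h29 : N ^ (29 / 1000 : ℝ) = L ^ 29 := by
      rw [hLdef, ← Real.rpow_natCast, ← Real.rpow_mul hN0.le]
      norm_num
    rw [h29] at h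
    have hp : 0 ≤ L ^ 29 := by positivity
    have h' : L ^ 29 / (29 / 1000) = (1000 / 29) * L ^ 29 := by ring
    rw [h'] at h
    nlinarith
  have hkey : (C1 + C2) * (1 + Real.log N) < L ^ 58 := by
    have hp : 1 ≤ L ^ 29 := one_le_pow₀ hL1
    have h3 : L ^ 1 ≤ L ^ 29 := hpw 1 29 (by norm_num)
    rw [pow_one] at h3
    have h4 : (C1 + C2) * (1 + Real.log N) ≤ (C1 + C2) * (36 * L ^ 29) :=
      mul_le_mul_of_nonneg_left (by linarith) (by linarith)
    have h5 : (C1 + C2) * (36 * L ^ 29) < L ^ 29 * L ^ 29 := by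
      have : (C1 + C2) * 36 < L ^ 29 := by linarith
      have := mul_lt_mul_of_pos_right this (show (0 : ℝ) < L ^ 29 by positivity)
      linarith
    have h6 : L ^ 58 = L ^ 29 * L ^ 29 := by ring
    rw [h6]
    linarith
  have hk1 : C1 * (1 + Real.log N) < L ^ 58 := by
    have : C1 * (1 + Real.log N) ≤ (C1 + C2) * (1 + Real.log N) :=
      mul_le_mul_of_nonneg_right (by linarith) (by linarith)
    linarith
  have hk2 : C2 * (1 + Real.log N) < L ^ 58 := by
    have : C2 * (1 + Real.log N) ≤ (C1 + C2) * (1 + Real.log N) :=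
      mul_le_mul_of_nonneg_right (by linarith) (by linarith)
    linarith
  have hδ0 : 0 < 1 / N := by positivity
  have hδ1 : 1 / N ≤ 1 := by rw [div_le_one hN0]; exact hN1
  have hlowG := RNG_low L N G hL1 hLN hGlow (fun s x0 hs1 hs2 => by
    have := hup (1 / N) s x0 le_rfl hs1 hs2
    rwa [div_div_eq_mul_div, div_one] at this)
  have hlowM := RNG_low L N M hL1 hLN hcon.le (fun s x0 hs1 hs2 => hMloc s x0 hs1 hs2)
  have hGC : GC G (1 / N) (L ^ 2) := by
    refine ⟨hG, ?_, ?_⟩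
    · intro d s x0 hd hs hs1
      refine (hup d s x0 hd hs hs1).trans ?_
      refine mul_le_mul_of_nonneg_right ?_ (Real.sqrt_nonneg _)
      have := hpw 1 2 (by norm_num)
      rwa [pow_one] at this
    · intro d hd hd1
      have hd0 : 0 < d := lt_of_lt_of_le hδ0 hd
      have h := hlowG d hd hd1
      have hs : 0 < Real.sqrt d := Real.sqrt_pos.2 hd0
      rw [Real.sqrt_div zero_le_one, Real.sqrt_one, div_mul_div_comm, one_mul, div_le_iff₀ (by positivity)]
      linarith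
  have hMU : ∀ m ∈ M, MU G (1 / N) L m := fun m hm => ⟨(hM m hm).1, (hM m hm).2, hmul m hm⟩
  set r1 : ℝ := (L ^ 200)⁻¹ with hr1
  have hr0 : 0 < r1 := by positivity
  have hs1 : Real.sqrt r1 = (L ^ 100)⁻¹ := by
    rw [hr1, show (L ^ 200)⁻¹ = ((L ^ 100)⁻¹) ^ 2 by rw [inv_pow]; ring]
    exact Real.sqrt_sq (by positivity)
  have hs2 : Real.sqrt (1 / r1) = L ^ 100 := by
    rw [Real.sqrt_div zero_le_one, Real.sqrt_one, hs1, one_div, inv_inv]
  have hs3 : Real.sqrt (1 / N) = (L ^ 500)⁻¹ := by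
    rw [← hLN, one_div, show (L ^ 1000)⁻¹ = ((L ^ 500)⁻¹) ^ 2 by rw [inv_pow]; ring]
    exact Real.sqrt_sq (by positivity)
  have hr8 : r1 ≤ 1 / 8 := by
    rw [hr1, one_div]
    refine inv_anti₀ (by norm_num) ?_
    have := hpw 1 200 (by norm_num)
    rw [pow_one] at this
    linarith
  have hr1' : r1 ≤ 1 := by linarith
  have hNr : ∀ k : ℕ, k ≤ 5 → 1 / N ≤ r1 ^ k := by
    intro k hk
    rw [hr1, inv_pow, ← pow_mul, one_div, ← hLN]
    exact inv_anti₀ (by positivity) (hpw _ _ (by omega))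
  have hδr : 1 / N ≤ r1 := by simpa using hNr 1 (by norm_num)
  have hcr : L ^ 98 ≤ (cov r1 M : ℝ) := by
    have h := hlowM r1 hδr hr1'
    rw [hs1, ← div_eq_mul_inv, le_div_iff₀ (by positivity)] at h
    have h' : L ^ 2 * L ^ 98 ≤ L ^ 2 * (cov r1 M : ℝ) := by
      calc L ^ 2 * L ^ 98 = 1 * L ^ 100 := by ring
        _ ≤ (cov r1 M : ℝ) * L ^ 2 := h
        _ = _ := by ring
    exact le_of_mul_le_mul_left h' (by positivity)
  have h98 : (80 : ℝ) ≤ L ^ 98 := by
    have := hpw 1 98 (by norm_num)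
    rw [pow_one] at this
    linarith
  have htwo : ∃ m5 ∈ M, ∃ m6 ∈ M, r1 ≤ |m5 - m6| := by
    by_contra hno
    push_neg at hno
    have hMne : M.Nonempty := by
      rw [Finset.nonempty_iff_ne_empty]
      rintro rfl
      have : (cov r1 (∅ : Finset ℝ) : ℝ) = 0 := by
        unfold cov cel
        simp
      rw [this] at hcr
      linarith
    obtain ⟨m0, hm0⟩ := hMne
    have h3 := RNG_three M r1 hr0 m0 (fun m hm => hno m hm m0 hm0)
    have h3' : (cov r1 M : ℝ) ≤ 3 := by exact_mod_cast h3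
    linarith
  have hlogN : Real.log (1 / (1 / N)) = Real.log N := by rw [one_div_one_div]
  by_cases hcase : ∃ x ∈ QQ M r1, ∃ x' : ℝ, (x' = x / 2 ∨ x' = (x + 1) / 2) ∧ ∀ y ∈ QQ M r1, r1 < |x' - y|
  · obtain ⟨x, hx, x', hx', hy⟩ := hcase
    have hcond : C1 * L ^ 26 * (L ^ 2) ^ 4 * Real.sqrt (1 / r1) * Real.sqrt (1 / N) ≤ 1 := by
      rw [hs2, hs3, ← div_eq_mul_inv, div_le_one (by positivity)]
      have h3 : C1 ≤ L ^ 366 := by
        have := hpw 1 366 (by norm_num)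
        rw [pow_one] at this
        linarith
      calc C1 * L ^ 26 * (L ^ 2) ^ 4 * L ^ 100 = C1 * L ^ 134 := by ring
        _ ≤ L ^ 366 * L ^ 134 := mul_le_mul_of_nonneg_right h3 (by positivity)
        _ = L ^ 500 := by ring
    obtain ⟨δ', hδ1', hδ2', h3⟩ := hA G M (1 / N) (L ^ 2) L r1 r1 x x' hδ0 hδ1 (one_le_pow₀ hL1) hL1 hGC hMU hr0 hr1' hr0 hr1'
      (by have := hNr 3 (by norm_num); linarith [show r1 * r1 ^ 2 = r1 ^ 3 by ring]) hδr hx hx' hy hcond
    have hδ' : 0 < δ' := lt_of_lt_of_le hδ0 hδ1'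
    have hδ'1 : δ' ≤ 1 := by
      refine hδ2'.trans ?_
      rw [div_le_one hr0]
      exact hδr
    have h4 := hlowM δ' hδ1' hδ'1
    have hsp : 0 < Real.sqrt δ' := Real.sqrt_pos.2 hδ'
    rw [hlogN, Real.sqrt_div zero_le_one, Real.sqrt_one] at h3
    have hcpos : 0 < (cov δ' M : ℝ) := by
      by_contra hneg
      push_neg at hneg
      have : (cov δ' M : ℝ) * L ^ 2 * Real.sqrt δ' ≤ 0 := by
        refine mul_nonpos_of_nonpos_of_nonneg (mul_nonpos_of_nonpos_of_nonneg hneg (by positivity)) hsp.le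
      linarith
    have h5 : 1 / Real.sqrt δ' ≤ (cov δ' M : ℝ) * L ^ 2 := by
      rw [div_le_iff₀ hsp]
      exact h4
    have hpos : 0 ≤ C1 * L ^ 26 * (L ^ 2) ^ 6 := by positivity
    have h6 : (cov δ' M : ℝ) * cov r1 M ≤ (cov δ' M : ℝ) * (L ^ 40 * (C1 * (1 + Real.log N))) := by
      calc (cov δ' M : ℝ) * cov r1 M ≤ C1 * L ^ 26 * (L ^ 2) ^ 6 * (1 / Real.sqrt δ') * (1 + Real.log N) := h3
        _ ≤ C1 * L ^ 26 * (L ^ 2) ^ 6 * ((cov δ' M : ℝ) * L ^ 2) * (1 + Real.log N) :=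
            mul_le_mul_of_nonneg_right (mul_le_mul_of_nonneg_left h5 hpos) (by linarith)
        _ = _ := by ring
    have h7 : (cov r1 M : ℝ) ≤ L ^ 40 * (C1 * (1 + Real.log N)) := le_of_mul_le_mul_left h6 hcpos
    have h8 : L ^ 40 * (C1 * (1 + Real.log N)) < L ^ 40 * L ^ 58 := mul_lt_mul_of_pos_left hk1 (by positivity)
    have h9 : L ^ 40 * L ^ 58 = L ^ 98 := by ring
    linarith
  · push_neg at hcase
    have hcond : C2 * L ^ 26 * (L ^ 2) ^ 6 * Real.sqrt r1 ≤ 1 := by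
      rw [hs1, ← div_eq_mul_inv, div_le_one (by positivity)]
      have h3 : C2 ≤ L ^ 62 := by
        have := hpw 1 62 (by norm_num)
        rw [pow_one] at this
        linarith
      calc C2 * L ^ 26 * (L ^ 2) ^ 6 = C2 * L ^ 38 := by ring
        _ ≤ L ^ 62 * L ^ 38 := mul_le_mul_of_nonneg_right h3 (by positivity)
        _ = L ^ 100 := by ring
    have h3 := hB G M (1 / N) (L ^ 2) L r1 r1 hδ0 hδ1 (one_le_pow₀ hL1) hL1 hGC hMU hr0 hr1' hr0 hr8
      (by have := hNr 2 (by norm_num); linarith [show r1 * r1 = r1 ^ 2 by ring]) hδr htwo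
      (fun x hx => by
        obtain ⟨y, hy, hy'⟩ := hcase x hx (x / 2) (Or.inl rfl)
        obtain ⟨z, hz, hz'⟩ := hcase x hx ((x + 1) / 2) (Or.inr rfl)
        refine ⟨⟨y, hy, ?_⟩, ⟨z, hz, ?_⟩⟩
        · rw [abs_sub_comm]; exact hy'
        · rw [abs_sub_comm]; exact hz') hcond
    have hlr : Real.log (1 / r1) ≤ Real.log N := by
      refine Real.log_le_log (by positivity) ?_
      rw [div_le_iff₀ hr0]
      have : 1 = N * (1 / N) := by field_simp
      calc (1 : ℝ) = N * (1 / N) := this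
        _ ≤ N * r1 := mul_le_mul_of_nonneg_left hδr hN0.le
    rw [hs1] at h3
    have h4 : C2 * L ^ 26 * (L ^ 2) ^ 8 * (L ^ 100)⁻¹ * (1 + Real.log (1 / r1)) ≤
        C2 * L ^ 26 * (L ^ 2) ^ 8 * (L ^ 100)⁻¹ * (1 + Real.log N) :=
      mul_le_mul_of_nonneg_left (by linarith) (by positivity)
    have h5 : C2 * L ^ 26 * (L ^ 2) ^ 8 * (L ^ 100)⁻¹ * (1 + Real.log N) =
        (C2 * (1 + Real.log N)) / L ^ 58 := by
      field_simp
    rw [h5] at h4
    have h6 : (C2 * (1 + Real.log N)) / L ^ 58 < 1 := by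
      rw [div_lt_one (by positivity)]
      exact hk2
    linarith

end Pool.Agent.HH
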